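import Pool.Agent.P.MP_8d0004_nt.NF.Lv

set_option autoImplicit false

namespace Pool.Agent.Results.MP_8d0004_nt.Newform

open UpperHalfPlane CongruenceSubgroup MeasureTheory
open scoped MatrixGroups Real

/-- The modified Bessel function of the first kind of order zero. -/
noncomputable def I0 (t : ℝ) : ℝ := (1 / π) * ∫ θ in (0 : ℝ)..π, Real.exp (t * Real.cos θ)

/-- The modified Bessel function of the second kind of order zero. -/
noncomputable def K0 (t : ℝ) : ℝ := ∫ u in Set.Ioi (0 : ℝ), Real.exp (-(t * Real.cosh u))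

/-- The Bessel moments. -/
noncomputable def IKM (a b n : ℕ) : ℝ := ∫ t in Set.Ioi (0 : ℝ), I0 t ^ a * K0 t ^ b * t ^ n

/-- The Petersson product of weight `k` and level `N`: the integral over the translates of the
standard fundamental domain by representatives of the cosets of `Gamma0 N`. -/
noncomputable def pet (N : ℕ) (k : ℤ) (f g : ℍ → ℂ) : ℂ :=
  ∑ᶠ c : SL(2, ℤ) ⧸ Gamma0 N, ∫ τ in ModularGroup.fd, petersson k f g (c.out⁻¹ • τ)

/-- The new subspace: the orthogonal complement of the oldforms `g (d τ)`, with `g` of level `M`,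
`M d ∣ N`, `M ≠ N`. -/
def IsNew (N : ℕ) (k : ℤ) (f : CuspForm (Gamma0 N) k) : Prop :=
  ∀ M d : ℕ, M * d ∣ N → M ≠ N → ∀ g : CuspForm (Gamma0 M) k,
    pet N k f (fun τ => g (ofComplex (d * τ))) = 0

open Pool.Agent.P.MP_8d0004_nt in
/-- The new subspace of weight six and level six is a line spanned by a normalised form, the
moments and the Dirichlet series at seven converge, and the determinant identity holds. -/
theorem result : ∃ f : CuspForm (Gamma0 6) 6, (qExpansion 1 f).coeff 1 = 1 ∧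
    (∀ g : CuspForm (Gamma0 6) 6, IsNew 6 6 g ↔ ∃ c : ℂ, g = c • f) ∧
    LSeriesSummable (fun n => (qExpansion 1 f).coeff n) 7 ∧
    (∀ a ∈ ({0, 2} : Set ℕ), ∀ n ∈ ({1, 3, 5} : Set ℕ),
      IntegrableOn (fun t : ℝ => I0 t ^ a * K0 t ^ (8 - a) * t ^ n) (Set.Ioi 0)) ∧
    ((Matrix.det !![IKM 0 8 1, IKM 0 8 3 - 2 * IKM 0 8 5;
        IKM 2 6 1, IKM 2 6 3 - 2 * IKM 2 6 5] : ℝ) : ℂ) =
      6075 / (128 * (π : ℂ) ^ 2) * LSeries (fun n => (qExpansion 1 f).coeff n) 7 := by
  have e : ∀ (d : ℕ+) (τ : ℍ), ofComplex ((d : ℕ) * τ : ℂ) = LR.M2.dm d • τ := fun d τ => by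
    rw [← LR.M2.dm_smul, ofComplex_apply]
  refine ⟨NF.cf0.form, NF.coeff_one, fun g => ?_, NF.lval.LSeriesSummable, ?_, ?_⟩
  · rw [← NF.new_iff]
    constructor
    · intro h M d h1 h2 G
      have := h M d h1 h2 G
      simp only [e] at this
      exact this
    · intro h M d h1 h2 G
      have hd : 0 < d := Nat.pos_of_ne_zero fun h0 => by simp [h0] at h1
      have := h M ⟨d, hd⟩ h1 h2 G
      rw [← funext fun τ => congrArg G (e ⟨d, hd⟩ τ)] at this
      exact this
  · rintro a (rfl | rfl) n (rfl | rfl | rfl) <;>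
      exact NF.mom_int _ _ _ (by norm_num) (by norm_num) (by norm_num)
  · have h : Matrix.det !![IKM 0 8 1, IKM 0 8 3 - 2 * IKM 0 8 5;
        IKM 2 6 1, IKM 2 6 3 - 2 * IKM 2 6 5] = 35 / 128 * Bes.rho := by
      rw [Matrix.det_fin_two_of, ← Bes.det_eq_rho]
      rfl
    have hπ : (π : ℂ) ≠ 0 := Complex.ofReal_ne_zero.2 Real.pi_ne_zero
    rw [NF.lval.LSeries_eq, h, LR.rho_eq]
    push_cast
    field_simp
    ring

end Pool.Agent.Results.MP_8d0004_nt.Newform
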